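import Pool.Agent.Lib.MP_16ef92_ag.TL.Lim

/-! Classes that die over an etale neighbourhood of a point of the base. -/

set_option autoImplicit false
set_option linter.unusedSectionVars false
set_option linter.unusedVariables false

namespace Pool.Agent.Lib.MP_16ef92_ag.RS

open FA (IE Stage AC TR toTR evTR Cut cut cutLift)

noncomputable section

variable [Bg] {R S S' T V W W' : Type} [CommRing R] [CommRing S] [CommRing S'] [CommRing T]
  [CommRing V] [CommRing W] [CommRing W'] {q : ℕ} {F : Sys R} {a : R →+* S}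

/-- The class `ξ` dies after base change to an etale neighbourhood of `y`. -/
def LD (ξ : HH q F a) (γ : W →+* S) (y : Pnt W) : Prop :=
  ∃ U : Stage y, ∀ (Z : Type) [CommRing Z] (e : S →+* Z) (d : U.W →+* Z),
    e.comp γ = d.comp U.a → Dz ξ e

theorem dies_of_ld {g : R →+* T} {F : Sys T} (h : ∀ (W : Type) [CommRing W] (c : R →+* W)
    (y : Pnt W) (ξ : HH (q + 1) F (Ten.inr c g)), c.Etale → LD ξ (Ten.inl c g) y) : Dies g F q := by
  intro W _ c y ξ hc
  obtain ⟨U, hU⟩ := h W c y ξ hc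
  exact ⟨U.W, _, U.a, U.d, U.et, U.comm, (dz_iff _).2 (hU _ _ (Ten.inl _ g) (Ten.map_inl ..))⟩

theorem LD.of_zero {ξ : HH q F a} (h : ξ = 0) (γ : W →+* S) (y : Pnt W) : LD ξ γ y :=
  ⟨Stage.bot y, fun _ _ _ _ _ => by rw [h, Dz, map_zero]⟩

/-- Passage to an etale algebra and to a point whose neighbourhoods all meet the fibre of `y`. -/
theorem LD.etale {ξ : HH q F a} {γ : W →+* S} {y : Pnt W} {b : W →+* W'} (hb : b.Etale)
    {e : S →+* S'} {γ' : W' →+* S'} (hP : FA.PO γ b e γ') {y' : Pnt W'}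
    (hy : ∀ U : Stage y', ∃ z : Pnt U.W, z.comp (U.a.comp b) = y) {a' : R →+* S'}
    (ha : e.comp a = a') (h : LD (HR q F e ha ξ) γ' y') : LD ξ γ y := by
  obtain ⟨U, hU⟩ := h
  obtain ⟨z, hz⟩ := hy U
  refine ⟨⟨U.W, U.a.comp b, z, et_comp hb U.et, hz⟩, fun Z _ e' d h1 => ?_⟩
  obtain ⟨w, w1, w2⟩ := hP.ex Z e' (d.comp U.a) h1
  exact w1 ▸ (dz_HR ha w).1 (hU Z w d w2)

/-- It is enough to look at the fibres over the residue fields of `T`. -/
theorem LD.fib (hT : AC T) (hG : Good T) (hS : Good S) (f : T →+* S) {ξ : HH q F a}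
    {γ : W →+* S} {y : Pnt W} (h : ∀ φ : Fib f, LD (HR q F φ.i rfl ξ) (φ.i.comp γ) y) :
    LD ξ γ y := by
  have a1 : ∀ x : Pnt T, ∃ (U : Stage y) (ε : T), IsIdempotentElem ε ∧ x ε = 1 ∧
      ∀ (Z : Type) [CommRing Z] (e : S →+* Z) (d : U.W →+* Z), e.comp γ = d.comp U.a →
        e (f ε) = 1 → Dz ξ e := fun x => by
    obtain ⟨φ, ι, rfl⟩ := exists_fib hT hG f x
    obtain ⟨U, hU⟩ := h φ
    obtain ⟨A, _, e₁, d₁, hA⟩ := FA.exists_po γ U.a
    obtain ⟨B, _, i, j, hB⟩ := FA.exists_po (e₁.comp f) φ.π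
    obtain ⟨w, w1, -⟩ := (Ten.po f φ.π).ex B (i.comp e₁) j hB.comm
    have h1 : Dz ξ (i.comp e₁) := w1 ▸ (dz_HR rfl w).1 (hU B w (i.comp d₁) (by
      rw [← RingHom.comp_assoc, w1, RingHom.comp_assoc, hA.comm, RingHom.comp_assoc]))
    obtain ⟨ε, k1, k2, k3⟩ := fib_loc hT (hS.et (hA.etale U.et)) φ.ie hB q (F.pb (e₁.comp a))
      (HR q F e₁ rfl ξ) ((dz_HR _ _).2 h1)
    refine ⟨U, ε, k1, by rw [RingHom.comp_apply, k2, map_one], fun Z _ e d h2 h3 => ?_⟩
    obtain ⟨v, v1, -⟩ := hA.ex Z e d h2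
    have := ((dz_HR _ _).1 k3).comp (cutLift v ((RingHom.congr_fun v1 (f ε)).trans h3))
    rwa [← RingHom.comp_assoc, FA.cutLift_comp, v1] at this
  choose U ε a2 a3 a4 using a1
  obtain ⟨n, p, η, k1, k2⟩ := hG.partition ε a2 a3
  obtain ⟨X, b, hb⟩ := Stage.exists_ub fun k => U (p k)
  refine ⟨X, fun Z _ e d h1 => clopen_glue (f := e.comp f) hG _ _ _ fun x => ?_⟩
  obtain ⟨k, -, hk⟩ := Finset.exists_ne_zero_of_sum_ne_zero (s := Finset.univ)
    (f := fun k => x (η k)) (by rw [← map_sum, k1.complete, map_one]; exact one_ne_zero)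
  refine ⟨η k, k1.idem k, pnt_idem (k1.idem k) x hk, (dz_HR _ _).2 (a4 (p k) _ _
    ((cut _).comp (d.comp (b k))) ?_ (cut_one (by rw [← RingHom.comp_apply e, ← map_mul, k2])))⟩
  rw [RingHom.comp_assoc, h1, RingHom.comp_assoc, RingHom.comp_assoc, (hb k).1]

/-- A clopen set of points is cut out by an idempotent. -/
theorem Good.exists_idem (hV : Good V) (P : Pnt V → Prop) (h1 : ∀ y, P y → Nr y P)
    (h2 : ∀ y, ¬ P y → Nr y fun y' => ¬ P y') :
    ∃ e : V, IsIdempotentElem e ∧ ∀ y : Pnt V, y e = 1 ↔ P y := by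
  classical
  have a1 : ∀ y : Pnt V, Nr y fun y' => P y' ↔ P y := fun y => by
    by_cases h : P y
    · exact (h1 y h).mono fun _ h' => iff_of_true h' h
    · exact (h2 y h).mono fun _ h' => iff_of_false h' h
  choose φ p1 p2 using a1
  obtain ⟨s, hs⟩ := hV.fin φ p1
  obtain ⟨c, hc⟩ : ∃ c : s → V, ∑ y, c y * φ y.1 = 1 := by
    refine Ideal.mem_span_range_iff_exists_fun.1 ?_
    rw [show (Set.range fun y : s => φ y.1) = φ '' s from
      (Set.image_eq_range φ (s : Set (Pnt V))).symm, hs]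
    trivial
  let u := ∑ y : s with P y.1, c y * φ y.1
  have a2 : ∀ z : Pnt V, ¬ P z → z u = 0 := fun z hz => by
    rw [map_sum]
    refine Finset.sum_eq_zero fun y hy => ?_
    rw [map_mul, by_contra fun h => hz ((p2 y.1 z h).2 (Finset.mem_filter.1 hy).2), mul_zero]
  have a3 : ∀ z : Pnt V, P z → z u = 1 := fun z hz => by
    rw [← map_one z, ← hc, ← Finset.sum_filter_add_sum_filter_not _ fun y : s => P y.1, map_add,
      left_eq_add, map_sum]
    refine Finset.sum_eq_zero fun y hy => ?_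
    rw [map_mul, by_contra fun h => (Finset.mem_filter.1 hy).2 ((p2 y.1 z h).1 hz), mul_zero]
  have a4 : u * u - u ∈ nilradical V := by
    rw [nilradical_eq_sInf, Submodule.mem_sInf]
    intro p hp
    obtain ⟨z, rfl⟩ := hV p hp
    rw [RingHom.mem_ker, map_sub, map_mul]
    by_cases hz : P z
    · rw [a3 z hz, mul_one, sub_self]
    · rw [a2 z hz, mul_zero, sub_self]
  obtain ⟨e, k1, k2⟩ := exists_isIdempotentElem_eq_of_ker_isNilpotent
    (Ideal.Quotient.mk (nilradical V)) (fun x hx => by rwa [Ideal.mk_ker, mem_nilradical] at hx)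
    (Ideal.Quotient.mk _ u) ⟨u, rfl⟩ (Ideal.Quotient.eq.2 a4)
  refine ⟨e, k1, fun y => ?_⟩
  have : y e = y u := by
    rw [← sub_eq_zero, ← map_sub]
    exact ((mem_nilradical.1 (Ideal.Quotient.eq.1 k2)).map y).eq_zero
  rw [this]
  exact ⟨fun h => by_contra fun hn => zero_ne_one ((a2 y hn).symm.trans h), a3 y⟩

/-- The zero set of a section that comes from an algebraically closed field is clopen. -/
theorem sec_idem {K : Type} [Field K] [IsAlgClosed K] (hV : Good V) (N : Sys K) {j : K →+* V}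
    {δ : Pnt V → N.A} (hδ : δ ∈ N.S j) :
    ∃ e : V, IsIdempotentElem e ∧ ∀ y : Pnt V, y e = 1 ↔ δ y = 0 := by
  refine hV.exists_idem _ (N.sep hδ) fun y hy => ?_
  obtain ⟨s, hs⟩ := ac_stalk (AC.of_field K) N (y.comp j) (N.mem hδ y)
  refine (N.sep' hδ (N.res j s.2) (y := y) hs.symm).mono fun y' h h0 => hy ?_
  obtain ⟨f, f1, f2⟩ := N.sep s.2 (y'.comp j) (h.symm.trans h0)
  exact hs.symm.trans (f2 _ ((map_ne_zero _).2 fun h => f1 (by rw [h, map_zero])))

end

end Pool.Agent.Lib.MP_16ef92_ag.RS
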